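import Mathlib

set_option autoImplicit false

/-!
# A quasirandom multipartite graph and separation of its parts in any linear order
-/

namespace Pool.Agent.R59.Circ

open Finset

/-- the sign of the inner product of two 0-1 vectors -/
def sgn {N : ℕ} (x y : Fin N → Bool) : ℤ := ∏ i, if x i && y i then -1 else 1

lemma sgn_comm {N : ℕ} (x y : Fin N → Bool) : sgn x y = sgn y x := by
  unfold sgn
  refine Finset.prod_congr rfl fun i _ => ?_
  rw [Bool.and_comm]

lemma sgn_eq {N : ℕ} (x y : Fin N → Bool) : sgn x y = 1 ∨ sgn x y = -1 := by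
  unfold sgn
  refine Finset.prod_induction _ (fun z : ℤ => z = 1 ∨ z = -1) ?_ (Or.inl rfl) ?_
  · rintro a b (rfl | rfl) (rfl | rfl) <;> simp
  · intro i _
    split_ifs <;> simp

lemma orth {N : ℕ} (y y' : Fin N → Bool) :
    ∑ x : Fin N → Bool, sgn x y * sgn x y' = if y = y' then (2 : ℤ) ^ N else 0 := by
  have h1 : ∀ x : Fin N → Bool, sgn x y * sgn x y' =
      ∏ i, ((if x i && y i then -1 else 1) * (if x i && y' i then -1 else 1) : ℤ) := by
    intro x
    unfold sgn
    rw [Finset.prod_mul_distrib]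
  simp_rw [h1]
  have h2 := Finset.prod_univ_sum (fun _ : Fin N => (univ : Finset Bool))
    (fun i b => ((if b && y i then -1 else 1) * (if b && y' i then -1 else 1) : ℤ))
  rw [Fintype.piFinset_univ] at h2
  rw [← h2]
  split_ifs with h
  · subst h
    have : ∀ i, ∑ b : Bool, ((if b && y i then -1 else 1) * (if b && y i then -1 else 1) : ℤ) = 2 := by
      intro i
      cases y i <;> simp
    rw [Finset.prod_congr rfl fun i _ => this i]
    simp
  · obtain ⟨i, hi⟩ : ∃ i, y i ≠ y' i := by
      by_contra hcon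
      push Not at hcon
      exact h (funext hcon)
    refine Finset.prod_eq_zero (mem_univ i) ?_
    revert hi
    cases y i <;> cases y' i <;> simp

lemma moment {N : ℕ} (Z : Finset (Fin N → Bool)) :
    ∑ x : Fin N → Bool, (∑ y ∈ Z, sgn x y) ^ 2 = (2 : ℤ) ^ N * Z.card := by
  have h1 : ∀ x : Fin N → Bool, (∑ y ∈ Z, sgn x y) ^ 2 = ∑ y ∈ Z, ∑ y' ∈ Z, sgn x y * sgn x y' := by
    intro x
    rw [sq, Finset.sum_mul_sum]
  simp_rw [h1]
  rw [Finset.sum_comm]
  have h2 : ∀ y ∈ Z, ∑ x : Fin N → Bool, ∑ y' ∈ Z, sgn x y * sgn x y' = (2 : ℤ) ^ N := by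
    intro y hy
    rw [Finset.sum_comm]
    simp_rw [orth]
    rw [Finset.sum_ite_eq]
    simp [hy]
  rw [Finset.sum_congr rfl h2, sum_const, nsmul_eq_mul]
  ring

/-- vertices which split `Z` badly -/
def bad {N : ℕ} (Z : Finset (Fin N → Bool)) : Finset (Fin N → Bool) :=
  univ.filter (fun x => (Z.card : ℤ) ^ 2 < 4 * (∑ y ∈ Z, sgn x y) ^ 2)

lemma bad_card {N : ℕ} (Z : Finset (Fin N → Bool)) :
    (bad Z).card * Z.card ≤ 4 * 2 ^ N := by
  rcases Nat.eq_zero_or_pos Z.card with h0 | hpos
  · rw [h0]; simp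
  have h1 : ((bad Z).card : ℤ) * (Z.card : ℤ) ^ 2 ≤ 4 * ((2 : ℤ) ^ N * Z.card) := by
    rw [← moment Z, Finset.mul_sum]
    calc ((bad Z).card : ℤ) * (Z.card : ℤ) ^ 2 = ∑ x ∈ bad Z, (Z.card : ℤ) ^ 2 := by
          rw [sum_const, nsmul_eq_mul]
      _ ≤ ∑ x ∈ bad Z, 4 * (∑ y ∈ Z, sgn x y) ^ 2 := by
          refine Finset.sum_le_sum fun x hx => ?_
          exact (mem_filter.1 hx).2.le
      _ ≤ ∑ x, 4 * (∑ y ∈ Z, sgn x y) ^ 2 :=
          Finset.sum_le_sum_of_subset_of_nonneg (subset_univ _) fun x _ _ => by positivity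
  have h2 : (((bad Z).card * Z.card : ℕ) : ℤ) * (Z.card : ℤ) ≤ ((4 * 2 ^ N : ℕ) : ℤ) * Z.card := by
    push_cast
    nlinarith
  have hpos' : (0 : ℤ) < Z.card := by exact_mod_cast hpos
  exact_mod_cast le_of_mul_le_mul_right h2 hpos'

/-- adjacency rule -/
def adjB {N : ℕ} (x y : Fin N → Bool) : Bool := decide (sgn x y = -1)

lemma adjB_comm {N : ℕ} (x y : Fin N → Bool) : adjB x y = adjB y x := by
  unfold adjB; rw [sgn_comm]

lemma good_card {N : ℕ} (Z : Finset (Fin N → Bool)) (x : Fin N → Bool) (hx : x ∉ bad Z) (t : Bool) :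
    (Z.card : ℝ) / 4 ≤ ((Z.filter (fun y => adjB x y = t)).card : ℝ) := by
  have h1 : 4 * (∑ y ∈ Z, sgn x y) ^ 2 ≤ (Z.card : ℤ) ^ 2 := by
    by_contra h
    exact hx (mem_filter.2 ⟨mem_univ _, not_le.1 h⟩)
  set p := (Z.filter (fun y => adjB x y = true)).card with hp
  set r := (Z.filter (fun y => adjB x y = false)).card with hr
  have hpr : p + r = Z.card := by
    rw [hp, hr]
    have := Finset.card_filter_add_card_filter_not (s := Z) (fun y => adjB x y = true)
    simpa using this
  have hs : ∑ y ∈ Z, sgn x y = (r : ℤ) - p := by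
    rw [← Finset.sum_filter_add_sum_filter_not Z (fun y => adjB x y = true)]
    have e1 : ∀ y ∈ Z.filter (fun y => adjB x y = true), sgn x y = -1 := by
      intro y hy
      have := (mem_filter.1 hy).2
      simpa [adjB] using this
    have e2 : ∀ y ∈ Z.filter (fun y => ¬ adjB x y = true), sgn x y = 1 := by
      intro y hy
      have := (mem_filter.1 hy).2
      simp only [adjB, decide_eq_true_eq] at this
      rcases sgn_eq x y with h | h
      · exact h
      · exact absurd h this
    rw [Finset.sum_congr rfl e1, Finset.sum_congr rfl e2, sum_const, sum_const]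
    have e3 : (Z.filter (fun y => ¬ adjB x y = true)).card = r := by
      rw [hr]; congr 1; ext y; simp
    rw [e3, ← hp]
    simp
    ring
  rw [hs, ← hpr] at h1
  push_cast at h1
  have hp0 : (0 : ℤ) ≤ p := Nat.cast_nonneg _
  have hr0 : (0 : ℤ) ≤ r := Nat.cast_nonneg _
  have h2 : |2 * ((r : ℤ) - p)| ≤ |(p : ℤ) + r| := by
    apply sq_le_sq.mp
    nlinarith
  rw [abs_of_nonneg (by positivity : (0 : ℤ) ≤ (p : ℤ) + r), abs_le] at h2
  have h3 : (p : ℤ) + r ≤ 4 * p ∧ (p : ℤ) + r ≤ 4 * r := by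
    constructor <;> linarith [h2.1, h2.2]
  have h3' : (p : ℝ) + r ≤ 4 * p ∧ (p : ℝ) + r ≤ 4 * r := by exact_mod_cast h3
  have hZ : (Z.card : ℝ) = p + r := by rw [← hpr]; push_cast; ring
  rw [hZ]
  cases t
  · rw [← hr]; linarith [h3'.2]
  · rw [← hp]; linarith [h3'.1]

/-- greedy embedding -/
lemma embed {N : ℕ} : ∀ (r : ℕ) (Z : Fin r → Finset (Fin N → Bool)) (t : Fin r → Fin r → Bool)
    (s : ℝ), 0 < s → 4 * (r : ℝ) * 16 ^ r * 2 ^ N < s ^ 2 → (∀ a, s ≤ ((Z a).card : ℝ)) →
    ∃ x : Fin r → (Fin N → Bool), (∀ a, x a ∈ Z a) ∧ ∀ a b, a < b → adjB (x a) (x b) = t a b := by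
  intro r
  induction r with
  | zero => intro Z t s _ _ _; exact ⟨fun a => a.elim0, fun a => a.elim0, fun a => a.elim0⟩
  | succ r ih =>
    intro Z t s hs0 hs hZ
    -- choose the first vertex
    have hx : ∃ x₀ ∈ Z 0, ∀ b : Fin r, x₀ ∉ bad (Z b.succ) := by
      by_contra hcon
      push Not at hcon
      have h1 : Z 0 ⊆ (univ : Finset (Fin r)).biUnion (fun b => bad (Z b.succ)) := by
        intro x hx
        obtain ⟨b, hb⟩ := hcon x hx
        exact mem_biUnion.2 ⟨b, mem_univ _, hb⟩
      have h2 := (card_le_card h1).trans card_biUnion_le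
      have h3 : ∀ b : Fin r, ((bad (Z b.succ)).card : ℝ) ≤ 4 * 2 ^ N / s := by
        intro b
        rw [le_div_iff₀ hs0]
        have h4 := bad_card (Z b.succ)
        have h5 : ((bad (Z b.succ)).card : ℝ) * ((Z b.succ).card : ℝ) ≤ 4 * 2 ^ N := by
          exact_mod_cast h4
        have h6 : ((bad (Z b.succ)).card : ℝ) * s ≤
            ((bad (Z b.succ)).card : ℝ) * ((Z b.succ).card : ℝ) :=
          mul_le_mul_of_nonneg_left (hZ _) (Nat.cast_nonneg _)
        linarith
      have h7 : ((Z 0).card : ℝ) ≤ r * (4 * 2 ^ N / s) := by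
        calc ((Z 0).card : ℝ) ≤ ((∑ b : Fin r, (bad (Z b.succ)).card : ℕ) : ℝ) := by
              exact_mod_cast h2
          _ = ∑ b : Fin r, ((bad (Z b.succ)).card : ℝ) := by push_cast; rfl
          _ ≤ ∑ b : Fin r, (4 * 2 ^ N / s) := Finset.sum_le_sum fun b _ => h3 b
          _ = r * (4 * 2 ^ N / s) := by rw [sum_const, card_univ, Fintype.card_fin, nsmul_eq_mul]
      have h8 : s ≤ r * (4 * 2 ^ N / s) := (hZ 0).trans h7
      have h9 : s * s ≤ r * (4 * 2 ^ N) := by
        have : s * s ≤ r * (4 * 2 ^ N / s) * s := mul_le_mul_of_nonneg_right h8 hs0.le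
        have e : r * (4 * 2 ^ N / s) * s = r * (4 * 2 ^ N) := by field_simp
        rw [e] at this
        exact this
      have h10 : (r : ℝ) * (4 * 2 ^ N) ≤ 4 * ((r + 1 : ℕ) : ℝ) * 16 ^ (r + 1) * 2 ^ N := by
        have h11 : (1 : ℝ) ≤ 16 ^ (r + 1) := one_le_pow₀ (by norm_num)
        have h12 : (0 : ℝ) < 2 ^ N := by positivity
        have h13 : (0 : ℝ) ≤ r := Nat.cast_nonneg _
        push_cast
        have h14 : (r : ℝ) ≤ (r + 1) * 16 ^ (r + 1) := by nlinarith
        nlinarith
      nlinarith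
    obtain ⟨x₀, hx₀, hgood⟩ := hx
    obtain ⟨x, hx1, hx2⟩ := ih (fun b => (Z b.succ).filter (fun y => adjB x₀ y = t 0 b.succ))
      (fun a b => t a.succ b.succ) (s / 4) (by positivity) (by
        have h1 : (4 : ℝ) * r * 16 ^ r * 2 ^ N ≤ 4 * ((r + 1 : ℕ) : ℝ) * 16 ^ (r + 1) * 2 ^ N / 16 := by
          push_cast
          rw [pow_succ]
          have h12 : (0 : ℝ) < 2 ^ N := by positivity
          have h13 : (0 : ℝ) < 16 ^ r := by positivity
          have : 4 * ((r : ℝ) + 1) * (16 ^ r * 16) * 2 ^ N / 16 = 4 * ((r : ℝ) + 1) * 16 ^ r * 2 ^ N := by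
            ring
          rw [this]
          have h14 : (0 : ℝ) < 16 ^ r * 2 ^ N := by positivity
          nlinarith
        have h2 : (s / 4) ^ 2 = s ^ 2 / 16 := by ring
        rw [h2]
        have h3 : 4 * ((r + 1 : ℕ) : ℝ) * 16 ^ (r + 1) * 2 ^ N / 16 < s ^ 2 / 16 :=
          div_lt_div_of_pos_right hs (by norm_num)
        linarith) (by
        intro a
        have h1 := good_card (Z a.succ) x₀ (hgood a) (t 0 a.succ)
        have h2 := hZ a.succ
        linarith)
    refine ⟨Fin.cons x₀ x, ?_, ?_⟩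
    · intro a
      refine Fin.cases ?_ (fun a => ?_) a
      · simpa using hx₀
      · simpa using (mem_filter.1 (hx1 a)).1
    · intro a b hab
      revert hab
      refine Fin.cases ?_ (fun a => ?_) a
      · refine Fin.cases (fun h => absurd h (lt_irrefl _)) (fun b _ => ?_) b
        simpa using (mem_filter.1 (hx1 b)).2
      · refine Fin.cases (fun h => absurd h (Fin.not_lt_zero _)) (fun b hab => ?_) b
        simpa using hx2 a b (Fin.succ_lt_succ_iff.1 hab)

/-! ### Separation -/

/-- elements of part `i` with position in `[p, q)` -/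
noncomputable def seg {ι W : Type} [Fintype W] (ord : ι → W → ℕ) (i : ι) (p q : ℕ) : Finset W :=
  univ.filter (fun x => p ≤ ord i x ∧ ord i x < q)

lemma seg_succ {ι W : Type} [Fintype W] (ord : ι → W → ℕ)
    (hinj : ∀ i, Function.Injective (ord i)) (i : ι) (p q : ℕ) :
    (seg ord i p (q + 1)).card ≤ (seg ord i p q).card + 1 := by
  classical
  have h1 : seg ord i p (q + 1) ⊆ seg ord i p q ∪ univ.filter (fun x => ord i x = q) := by
    intro x hx
    simp only [seg, mem_filter, mem_univ, true_and, mem_union] at hx ⊢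
    omega
  have h2 : (univ.filter (fun x => ord i x = q)).card ≤ 1 := by
    rw [card_le_one]
    intro a ha b hb
    simp only [mem_filter, mem_univ, true_and] at ha hb
    exact hinj i (ha.trans hb.symm)
  calc _ ≤ _ := card_le_card h1
    _ ≤ _ := card_union_le _ _
    _ ≤ _ := by omega

/-- the first position where one of the parts in `R` has `b` elements -/
lemma first_cut {ι W : Type} [Fintype W] (ord : ι → W → ℕ)
    (hinj : ∀ i, Function.Injective (ord i)) (R : Finset ι) (p Q b : ℕ)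
    (hne : ∃ i ∈ R, b ≤ (seg ord i p Q).card) (hb : 1 ≤ b) :
    ∃ q, p ≤ q ∧ q ≤ Q ∧ (∃ i ∈ R, b ≤ (seg ord i p q).card) ∧
      ∀ i ∈ R, (seg ord i p q).card ≤ b := by
  classical
  have hex : ∃ q, ∃ i ∈ R, b ≤ (seg ord i p q).card := ⟨Q, hne⟩
  let q := Nat.find hex
  have hq := Nat.find_spec hex
  have hq0 : q ≠ 0 := by
    intro h0
    obtain ⟨i, _, hi⟩ := hq
    have : (seg ord i p q).card = 0 := by
      rw [card_eq_zero, seg, filter_eq_empty_iff]
      intro x _ h
      omega
    have hi' : b ≤ (seg ord i p q).card := hi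
    omega
  refine ⟨q, ?_, Nat.find_min' hex hne, hq, ?_⟩
  · by_contra hlt
    push Not at hlt
    obtain ⟨i, _, hi⟩ := hq
    have : (seg ord i p q).card = 0 := by
      rw [card_eq_zero, seg, filter_eq_empty_iff]
      intro x _ h
      omega
    have hi' : b ≤ (seg ord i p q).card := hi
    omega
  · intro i hi
    have h1 := Nat.find_min hex (m := q - 1) (by show q - 1 < q; omega)
    push Not at h1
    have h2 := h1 i hi
    have h3 := seg_succ ord hinj i p (q - 1)
    have e : q - 1 + 1 = q := by omega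
    rw [e] at h3
    omega

lemma seg_split {ι W : Type} [Fintype W] (ord : ι → W → ℕ) (i : ι) (p q r : ℕ) (h1 : p ≤ q)
    (h2 : q ≤ r) : (seg ord i p r).card = (seg ord i p q).card + (seg ord i q r).card := by
  classical
  rw [← card_union_of_disjoint]
  · congr 1
    ext x
    simp only [seg, mem_filter, mem_univ, true_and, mem_union]
    omega
  · rw [Finset.disjoint_left]
    intro x hx hx'
    simp only [seg, mem_filter, mem_univ, true_and] at hx hx'
    omega

/-- separation of the parts -/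
lemma separate {ι W : Type} [Fintype W] [DecidableEq ι] (ord : ι → W → ℕ)
    (hinj : ∀ i, Function.Injective (ord i)) (b : ℕ) (hb : 1 ≤ b) (Q : ℕ) :
    ∀ (r : ℕ) (R : Finset ι) (p : ℕ), R.card = r → p ≤ Q →
      (∀ i ∈ R, r * b ≤ (seg ord i p Q).card) →
      ∃ (σ : Fin r → ι) (τ : Fin (r + 1) → ℕ), Function.Injective σ ∧ (∀ j, σ j ∈ R) ∧
        Monotone τ ∧ (∀ j, p ≤ τ j) ∧ ∀ j : Fin r, b ≤ (seg ord (σ j) (τ j.castSucc) (τ j.succ)).card := by
  intro r
  induction r with
  | zero =>
    intro R p _ _ _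
    refine ⟨fun a => a.elim0, fun _ => p, fun a => a.elim0, fun a => a.elim0, fun _ _ _ => le_rfl,
      fun _ => le_rfl, fun a => a.elim0⟩
  | succ r ih =>
    intro R p hR hp hlarge
    have hRne : R.Nonempty := by rw [← card_pos]; omega
    obtain ⟨i₁, hi₁⟩ := hRne
    obtain ⟨q, hpq, hqQ, ⟨i₀, hi₀, hi₀b⟩, hall⟩ := first_cut ord hinj R p Q b
      ⟨i₁, hi₁, by
        have := hlarge i₁ hi₁
        nlinarith⟩ hb
    obtain ⟨σ, τ, h1, h2, h3, h4, h5⟩ := ih (R.erase i₀) q (by
      rw [card_erase_of_mem hi₀]; omega) hqQ (by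
      intro i hi
      have hiR := mem_of_mem_erase hi
      have h6 := hlarge i hiR
      rw [seg_split ord i p q Q hpq hqQ] at h6
      have h7 := hall i hiR
      have h8 : (r + 1) * b = r * b + b := by ring
      omega)
    refine ⟨Fin.cons i₀ σ, Fin.cons p τ, ?_, ?_, ?_, ?_, ?_⟩
    · rw [Fin.cons_injective_iff]
      refine ⟨?_, h1⟩
      rintro ⟨j, hj⟩
      exact (ne_of_mem_erase (h2 j)) hj
    · intro j
      refine Fin.cases ?_ (fun j => ?_) j
      · simpa using hi₀
      · simpa using mem_of_mem_erase (h2 j)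
    · intro a c hac
      revert hac
      refine Fin.cases ?_ (fun a => ?_) a
      · intro _
        refine Fin.cases ?_ (fun c => ?_) c
        · simp
        · simpa using hpq.trans (h4 c)
      · refine Fin.cases (fun h => ?_) (fun c hac => ?_) c
        · exact absurd h (by simp)
        · simpa using h3 (Fin.succ_le_succ_iff.1 hac)
    · intro j
      refine Fin.cases ?_ (fun j => ?_) j
      · simp
      · simpa using hpq.trans (h4 j)
    · intro j
      refine Fin.cases ?_ (fun j => ?_) j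
      · show b ≤ (seg ord i₀ p (τ 0)).card
        have : (seg ord i₀ p q).card ≤ (seg ord i₀ p (τ 0)).card := by
          rw [seg_split ord i₀ p q (τ 0) hpq (h4 0)]
          omega
        omega
      · have := h5 j
        simpa [Fin.cons_succ, ← Fin.succ_castSucc] using this

/-- splitting of one segment into `m` segments -/
lemma split_seg {ι W : Type} [Fintype W] (ord : ι → W → ℕ)
    (hinj : ∀ i, Function.Injective (ord i)) (b : ℕ) (hb : 1 ≤ b) (i : ι) (Q : ℕ) :
    ∀ (m : ℕ) (p : ℕ), p ≤ Q → m * b ≤ (seg ord i p Q).card →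
      ∃ τ : ℕ → ℕ, Monotone τ ∧ (∀ j, p ≤ τ j) ∧ (∀ j, τ j ≤ Q) ∧
        ∀ j < m, b ≤ (seg ord i (τ j) (τ (j + 1))).card := by
  intro m
  induction m with
  | zero =>
    intro p hp _
    exact ⟨fun _ => p, fun _ _ _ => le_rfl, fun _ => le_rfl, fun _ => hp, fun j hj => absurd hj (by omega)⟩
  | succ m ih =>
    intro p hp hlarge
    obtain ⟨q, hpq, hqQ, ⟨i₀, hi₀, hi₀b⟩, hall⟩ := first_cut ord hinj {i} p Q b
      ⟨i, by simp, by nlinarith⟩ hb
    rw [mem_singleton] at hi₀
    subst hi₀
    obtain ⟨τ, h1, h2, h3, h4⟩ := ih q hqQ (by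
      rw [seg_split ord i₀ p q Q hpq hqQ] at hlarge
      have h7 := hall i₀ (by simp)
      have h8 : (m + 1) * b = m * b + b := by ring
      omega)
    refine ⟨fun j => if j = 0 then p else τ (j - 1), ?_, ?_, ?_, ?_⟩
    · intro a c hac
      simp only
      split_ifs with ha hc hc
      · exact le_rfl
      · exact hpq.trans (h2 _)
      · omega
      · exact h1 (by omega)
    · intro j
      simp only
      split_ifs
      · exact le_rfl
      · exact hpq.trans (h2 _)
    · intro j
      simp only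
      split_ifs
      · exact hp
      · exact h3 _
    · intro j hj
      simp only
      by_cases h0 : j = 0
      · subst h0
        simp only [if_true, zero_add, one_ne_zero, if_false, Nat.sub_self]
        rw [seg_split ord i₀ p q (τ 0) hpq (h2 0)]
        omega
      · rw [if_neg h0, if_neg (by omega)]
        have := h4 (j - 1) (by omega)
        have e : j - 1 + 1 = j + 1 - 1 := by omega
        rwa [e] at this

end Pool.Agent.R59.Circ
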